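import Mathlib

set_option autoImplicit false

namespace Pool.Agent.H.MP_5fb53e_lc

open Sum

abbrev Big (X C : Type) := (X × ZMod 2) ⊕ (C × ZMod 2 × ZMod 2)
abbrev Prb (C : Type) := Bool × C × Fin 3 × ZMod 2
abbrev Vx (X C : Type) := Big X C ⊕ Prb C

lemma z2 (a : ZMod 2) : a = 0 ∨ a = 1 := by revert a; decide
lemma z2add (a : ZMod 2) : a + a = 0 := by revert a; decide
lemma z2ne (a : ZMod 2) : a + 1 ≠ a := by revert a; decide

section
variable {X C : Type} (var : C → Fin 3 → X) (lv : X ⊕ C → ℕ)

def cl : Big X C → X ⊕ C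
  | inl w => inl w.1
  | inr w => inr w.1

def att : Prb C → X ⊕ C
  | (true, c, j, _) => inl (var c j)
  | (false, c, _, _) => inr c

def bit (β : C → ZMod 2) : Big X C → Fin 3 → ZMod 2
  | inl w => fun _ => w.2
  | inr w => ![w.2.1, w.2.2, w.2.1 + w.2.2 + β w.1]

def bp (β : C → ZMod 2) (w : Big X C) (p : Prb C) : Prop :=
  lv (att var p) < lv (cl w) ∨ (cl w = att var p ∧ bit β w p.2.2.1 = p.2.2.2)

def adj (β : C → ZMod 2) : Vx X C → Vx X C → Prop
  | inl w, inl w' => w ≠ w'
  | inl w, inr p => bp var lv β w p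
  | inr p, inl w => bp var lv β w p
  | inr p, inr p' => p ≠ p' ∧ p.2 = p'.2

def Gr (β : C → ZMod 2) : SimpleGraph (Vx X C) where
  Adj := adj var lv β
  symm := ⟨by
    rintro (w | p) (w' | p') h
    · exact Ne.symm h
    · exact h
    · exact h
    · exact ⟨h.1.symm, h.2.symm⟩⟩
  loopless := ⟨by
    rintro (w | p) h
    · exact h rfl
    · exact h.1 rfl⟩

def phiB (A : X → ZMod 2) : Big X C → Big X C
  | inl w => inl (w.1, w.2 + A w.1)
  | inr w => inr (w.1, w.2.1 + A (var w.1 0), w.2.2 + A (var w.1 1))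

def phiP (A : X → ZMod 2) (p : Prb C) : Prb C :=
  (p.1, p.2.1, p.2.2.1, p.2.2.2 + A (var p.2.1 p.2.2.1))

def phi (A : X → ZMod 2) : Vx X C → Vx X C
  | inl w => inl (phiB var A w)
  | inr p => inr (phiP var A p)

lemma phi_phi (A : X → ZMod 2) (v : Vx X C) : phi var A (phi var A v) = v := by
  rcases v with (⟨x, a⟩ | ⟨c, a, b⟩) | ⟨b, c, j, a⟩ <;>
    simp [phi, phiB, phiP, add_assoc, z2add]

lemma phi_inj (A : X → ZMod 2) : Function.Injective (phi var A) :=
  Function.Involutive.injective (phi_phi var A)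

lemma cl_phiB (A : X → ZMod 2) (w : Big X C) : cl (phiB var A w) = cl w := by
  rcases w with w | w <;> rfl

lemma att_phiP (A : X → ZMod 2) (p : Prb C) : att var (phiP var A p) = att var p := by
  rcases p with ⟨_ | _, c, j, a⟩ <;> rfl

def sat (β β' : C → ZMod 2) (A : X → ZMod 2) (c : C) : Prop :=
  A (var c 0) + A (var c 1) + A (var c 2) = β c + β' c

def okv (β β' : C → ZMod 2) (A : X → ZMod 2) (v : Vx X C) : Prop :=
  ∀ c a b, v = inl (inr (c, a, b)) → sat var β β' A c

lemma bp_phi (β β' : C → ZMod 2) (A : X → ZMod 2) (w : Big X C) (p : Prb C)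
    (h : okv var β β' A (inl w)) :
    bp var lv β w p ↔ bp var lv β' (phiB var A w) (phiP var A p) := by
  unfold bp
  rw [cl_phiB, att_phiP]
  apply or_congr Iff.rfl
  apply and_congr_right
  intro hc
  rcases w with ⟨x, a⟩ | ⟨c, a, b⟩ <;> rcases p with ⟨_ | _, c', j, a'⟩
  · simp [cl, att] at hc
  · simp only [cl, att, inl.injEq] at hc
    subst hc
    simp [bit, phiB, phiP]
  · simp only [cl, att, inr.injEq] at hc
    subst hc
    have hs := h c a b rfl
    unfold sat at hs
    fin_cases j
    · simp [bit, phiB, phiP]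
    · simp [bit, phiB, phiP]
    · simp only [bit, phiB, phiP]
      simp
      generalize A (var c 0) = u at *
      generalize A (var c 1) = v at *
      generalize A (var c 2) = z at *
      generalize β c = e at *
      generalize β' c = e' at *
      clear h
      revert hs a b a' u v z e e'
      decide
  · simp [cl, att] at hc

lemma phi_adj (β β' : C → ZMod 2) (A : X → ZMod 2) (u v : Vx X C)
    (hu : okv var β β' A u) (hv : okv var β β' A v) :
    (Gr var lv β).Adj u v ↔ (Gr var lv β').Adj (phi var A u) (phi var A v) := by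
  rcases u with w | p <;> rcases v with w' | p'
  · change w ≠ w' ↔ phiB var A w ≠ phiB var A w'
    constructor
    · intro h h'
      have : phi var A (inl w) = phi var A (inl w') := by simp only [phi]; rw [h']
      exact h (inl.inj (phi_inj var A this))
    · intro h h'; exact h (by rw [h'])
  · exact bp_phi var lv β β' A w p' hu
  · exact bp_phi var lv β β' A w' p hv
  · change (p ≠ p' ∧ p.2 = p'.2) ↔ (phiP var A p ≠ phiP var A p' ∧
      (phiP var A p).2 = (phiP var A p').2)
    rcases p with ⟨b, c, j, a⟩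
    rcases p' with ⟨b', c', j', a'⟩
    simp only [phiP, ne_eq, Prod.mk.injEq]
    constructor
    · rintro ⟨h1, rfl, rfl, rfl⟩
      simpa using h1
    · rintro ⟨h1, rfl, rfl, h2⟩
      have := add_right_cancel h2
      subst this
      simpa using h1

def CN (β : C → ZMod 2) (v : Vx X C) : Set (Vx X C) := {u | u = v ∨ (Gr var lv β).Adj v u}

lemma CN_iso {β β' : C → ZMod 2} (ψ : Gr var lv β ≃g Gr var lv β') (v : Vx X C) :
    (CN var lv β' (ψ v)).ncard = (CN var lv β v).ncard := by
  have : CN var lv β' (ψ v) = ψ '' CN var lv β v := by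
    ext u
    obtain ⟨u, rfl⟩ := ψ.surjective u
    rw [ψ.injective.mem_set_image]
    simp only [CN, Set.mem_setOf_eq]
    rw [ψ.map_adj_iff, ψ.injective.eq_iff]
  rw [this, Set.ncard_image_of_injective _ ψ.injective]

lemma ex_bit (β : C → ZMod 2) (p : Prb C) (a : ZMod 2) :
    ∃ w : Big X C, cl w = att var p ∧ bit β w p.2.2.1 = a := by
  rcases p with ⟨_ | _, c, j, a'⟩
  · fin_cases j
    · exact ⟨inr (c, a, 0), rfl, by simp [bit]⟩
    · exact ⟨inr (c, 0, a), rfl, by simp [bit]⟩
    · exact ⟨inr (c, a - β c, 0), rfl, by simp [bit]⟩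
  · exact ⟨inl (var c j, a), rfl, rfl⟩

variable [Fintype X] [Fintype C]

lemma lemA (hocc : ∀ x, ∃ c j, var c j = x) (β β' : C → ZMod 2) (w w' : Big X C)
    (h : lv (cl w) < lv (cl w')) :
    (CN var lv β (inl w)).ncard < (CN var lv β' (inl w')).ncard := by
  apply Set.ncard_lt_ncard _ (Set.toFinite _)
  have hex : ∃ p : Prb C, att var p = cl w ∧ bit β w p.2.2.1 ≠ p.2.2.2 := by
    rcases w with ⟨x, a⟩ | ⟨c, a, b⟩
    · obtain ⟨c, j, rfl⟩ := hocc x
      exact ⟨(true, c, j, a + 1), rfl, (z2ne a).symm⟩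
    · exact ⟨(false, c, 0, a + 1), rfl, (z2ne a).symm⟩
  obtain ⟨p, hp1, hp2⟩ := hex
  constructor
  · rintro (u | q) hu
    · by_cases hh : u = w'
      · left; rw [hh]
      · right; exact fun e => hh e.symm
    · right
      rcases hu with hu | hu
      · cases hu
      · left
        rcases hu with hu | hu
        · exact hu.trans h
        · rw [← hu.1]; exact h
  · intro hs
    have : (inr p : Vx X C) ∈ CN var lv β' (inl w') := by
      right; left; rw [hp1]; exact h
    rcases hs this with h1 | h1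
    · cases h1
    · rcases h1 with h1 | h1
      · rw [hp1] at h1; exact lt_irrefl _ h1
      · exact hp2 h1.2

lemma lemB (hocc : ∀ x, ∃ c j, var c j = x) (hlow : ∀ x c, lv (inr c) < lv (inl x))
    (β β' : C → ZMod 2) (p : Prb C) (w : Big X C) :
    (CN var lv β (inr p)).ncard < (CN var lv β' (inl w)).ncard := by
  obtain ⟨w0, h1, h2⟩ := ex_bit var β p (p.2.2.2 + 1)
  have hex : ∃ p1 p2 : Prb C, p1 ≠ p2 ∧ bp var lv β' w p1 ∧ bp var lv β' w p2 := by
    rcases w with ⟨x, a⟩ | ⟨c, a, b⟩
    · obtain ⟨c, j, rfl⟩ := hocc x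
      exact ⟨(false, c, 0, 0), (false, c, 1, 0), by simp, Or.inl (hlow _ _), Or.inl (hlow _ _)⟩
    · exact ⟨(false, c, 0, a), (false, c, 1, b), by simp, Or.inr ⟨rfl, rfl⟩, Or.inr ⟨rfl, rfl⟩⟩
  obtain ⟨p1, p2, hne, a1, a2⟩ := hex
  set Bs : Set (Vx X C) := Set.range inl with hBs
  have s1 : CN var lv β (inr p) ⊆ (Bs \ {inl w0}) ∪ {inr (false, p.2), inr (true, p.2)} := by
    rintro (u | q) hu
    · left
      refine ⟨⟨u, rfl⟩, ?_⟩
      intro e
      have e' : u = w0 := inl.inj e
      subst e'
      rcases hu with hu | hu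
      · cases hu
      · rcases hu with hu | hu
        · rw [h1] at hu; exact lt_irrefl _ hu
        · rw [h2] at hu; exact z2ne _ hu.2
    · right
      have : q.2 = p.2 := by
        rcases hu with hu | hu
        · rw [inr.inj hu]
        · exact hu.2.symm
      rcases q with ⟨_ | _, q⟩
      · left; simp only at this; rw [this]
      · right; simp only at this; rw [this]; rfl
  have s2 : Bs ∪ {inr p1, inr p2} ⊆ CN var lv β' (inl w) := by
    rintro v (⟨u, rfl⟩ | rfl | rfl)
    · by_cases hh : u = w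
      · left; rw [hh]
      · right; exact fun e => hh e.symm
    · right; exact a1
    · right; exact a2
  have c1 := Set.ncard_le_ncard s1 (Set.toFinite _)
  have c2 := Set.ncard_le_ncard s2 (Set.toFinite _)
  have c3 := Set.ncard_union_le (Bs \ {inl w0}) {inr (false, p.2), inr (true, p.2)}
  have c4 : (Bs \ {inl w0}).ncard + 1 = Bs.ncard :=
    Set.ncard_diff_singleton_add_one ⟨w0, rfl⟩ (Set.toFinite _)
  have c5 : ({inr (false, p.2), inr (true, p.2)} : Set (Vx X C)).ncard = 2 :=
    Set.ncard_pair (by simp)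
  have c6 : ({inr p1, inr p2} : Set (Vx X C)).ncard = 2 :=
    Set.ncard_pair (by simpa using hne)
  have c7 : (Bs ∪ {inr p1, inr p2}).ncard = Bs.ncard + ({inr p1, inr p2} : Set (Vx X C)).ncard := by
    apply Set.ncard_union_eq _ (Set.toFinite _) (Set.toFinite _)
    rw [Set.disjoint_left]
    rintro v ⟨u, rfl⟩ (h | h) <;> cases h
  omega

theorem rigid (hinj : Function.Injective lv) (hocc : ∀ x, ∃ c j, var c j = x)
    (hlow : ∀ x c, lv (inr c) < lv (inl x)) (β β' : C → ZMod 2)
    (ψ : Gr var lv β ≃g Gr var lv β') : ∃ A : X → ZMod 2, ∀ c, sat var β β' A c := by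
  have h1 : ∀ w, ∃ w', ψ (inl w) = inl w' ∧ cl w' = cl w := by
    intro w
    have e := CN_iso var lv ψ (inl w)
    rcases hw : ψ (inl w) with w' | p
    · refine ⟨w', rfl, hinj ?_⟩
      rw [hw] at e
      rcases lt_trichotomy (lv (cl w')) (lv (cl w)) with h | h | h
      · have := lemA var lv hocc β' β w' w h; omega
      · exact h
      · have := lemA var lv hocc β β' w w' h; omega
    · rw [hw] at e
      have := lemB var lv hocc hlow β' β p w; omega
  have h2 : ∀ p, ∃ p', ψ (inr p) = inr p' ∧ att var p' = att var p := by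
    intro p
    have e := CN_iso var lv ψ (inr p)
    rcases hw : ψ (inr p) with w | p'
    · rw [hw] at e
      have := lemB var lv hocc hlow β β' p w; omega
    · refine ⟨p', rfl, ?_⟩
      by_contra hne
      obtain ⟨w1, a1, a2⟩ := ex_bit var β p p.2.2.2
      obtain ⟨w0, b1, b2⟩ := ex_bit var β p (p.2.2.2 + 1)
      obtain ⟨w1', c1, c2⟩ := h1 w1
      obtain ⟨w0', d1, d2⟩ := h1 w0
      have x1 : (Gr var lv β).Adj (inl w1) (inr p) := Or.inr ⟨a1, a2⟩
      have x0 : ¬ (Gr var lv β).Adj (inl w0) (inr p) := by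
        rintro (h | h)
        · rw [b1] at h; exact lt_irrefl _ h
        · rw [b2] at h; exact z2ne _ h.2
      rw [← ψ.map_adj_iff, hw, c1] at x1
      rw [← ψ.map_adj_iff, hw, d1] at x0
      apply x0
      rcases x1 with h | h
      · left; rw [d2, b1, ← a1, ← c2]; exact h
      · exact absurd (by rw [← h.1, c2, a1]) hne
  have h3 : ∀ x, ∃ A : ZMod 2, ∀ a, ψ (inl (inl (x, a))) = inl (inl (x, a + A)) := by
    intro x
    have k : ∀ a, ∃ a', ψ (inl (inl (x, a))) = inl (inl (x, a')) := by
      intro a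
      obtain ⟨w', e1, e2⟩ := h1 (inl (x, a))
      rcases w' with ⟨x', a'⟩ | w'
      · simp only [cl, inl.injEq] at e2
        subst e2
        exact ⟨a', e1⟩
      · simp [cl] at e2
    obtain ⟨a0, e0⟩ := k 0
    obtain ⟨a1, e1⟩ := k 1
    have hne : a0 ≠ a1 := by
      intro h
      subst h
      have := ψ.injective (e0.trans e1.symm)
      simp at this
    refine ⟨a0, fun a => ?_⟩
    rcases z2 a with rfl | rfl
    · rw [e0, zero_add]
    · rw [e1]
      have : a1 = 1 + a0 := by clear e0 e1; revert a0 a1; decide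
      rw [this]
  choose A hA using h3
  refine ⟨A, fun c => ?_⟩
  have h5 : ∀ j a, ∃ j', ψ (inr (false, c, j, a)) = inr (false, c, j', a + A (var c j)) := by
    intro j a
    obtain ⟨p, e1, e2⟩ := h2 (true, c, j, a)
    obtain ⟨q, f1, f2⟩ := h2 (false, c, j, a)
    have x1 : (Gr var lv β).Adj (inl (inl (var c j, a))) (inr (true, c, j, a)) :=
      Or.inr ⟨rfl, rfl⟩
    have x2 : (Gr var lv β).Adj (inr (false, c, j, a)) (inr (true, c, j, a)) :=
      ⟨by simp, rfl⟩
    rw [← ψ.map_adj_iff, hA, e1] at x1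
    rw [← ψ.map_adj_iff, f1, e1] at x2
    have y1 : a + A (var c j) = p.2.2.2 := by
      rcases x1 with h | h
      · rw [e2] at h; exact absurd h (lt_irrefl _)
      · exact h.2
    have y2 : q.2 = p.2 := x2.2
    rcases q with ⟨_ | _, c', j', a'⟩
    · simp only [att, inr.injEq] at f2
      subst f2
      refine ⟨j', ?_⟩
      rw [f1, y1, ← y2]
    · simp [att] at f2
  obtain ⟨m, m1, m2⟩ := h1 (inr (c, 0, 0))
  choose σ hσ using fun j => h5 j (bit β (inr (c, 0, 0) : Big X C) j)
  have hb : ∀ j, bit β' m (σ j) = bit β (inr (c, 0, 0) : Big X C) j + A (var c j) := by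
    intro j
    have x : (Gr var lv β).Adj (inl (inr (c, 0, 0)))
        (inr (false, c, j, bit β (inr (c, 0, 0) : Big X C) j)) := Or.inr ⟨rfl, rfl⟩
    rw [← ψ.map_adj_iff, m1, hσ] at x
    rcases x with h | h
    · rw [m2] at h; exact absurd h (lt_irrefl _)
    · exact h.2
  have hσi : Function.Injective σ := by
    intro j j' e
    have e1 := hσ j
    have e2 := hσ j'
    rw [← hb] at e1 e2
    rw [e] at e1
    have := ψ.injective (e1.trans e2.symm)
    simp only [inr.injEq, Prod.mk.injEq] at this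
    exact this.2.2.1
  have hsum := (Finite.injective_iff_bijective.1 hσi).sum_comp (bit β' m)
  simp only [hb] at hsum
  rcases m with m | ⟨c', a, b⟩
  · simp [cl] at m2
  · simp only [cl, inr.injEq] at m2
    subst m2
    simp only [Fin.sum_univ_three, bit] at hsum
    simp at hsum
    unfold sat
    generalize A (var c' 0) = u at *
    generalize A (var c' 1) = v at *
    generalize A (var c' 2) = z at *
    generalize β c' = e at *
    generalize β' c' = e' at *
    clear m1 hb hσ
    revert hsum a b u v z e e'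
    decide

end

end Pool.Agent.H.MP_5fb53e_lc
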