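import Pool.Agent.H.MP_5fb53e_lc.Geo
import Pool.Agent.H.MP_5fb53e_lc.Cfi

set_option autoImplicit false

namespace Pool.Agent.H.MP_5fb53e_lc

open Sum

section
variable {X C : Type} (var : C → Fin 3 → X) (lv : X ⊕ C → ℕ) (idx : C → ℕ)

def tz (p : Prb C) : ℤ :=
  if p.2.2.2 = 0 then -(3 * (idx p.2.1 : ℤ) + 2) - 1 + (p.2.2.1 : ℕ)
  else (3 * (idx p.2.1 : ℤ) + 2) - 1 + (p.2.2.1 : ℕ)

lemma tz_inj (hidx : Function.Injective idx) (p p' : Prb C) :
    tz idx p = tz idx p' ↔ p.2 = p'.2 := by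
  rcases p with ⟨b, c, j, a⟩
  rcases p' with ⟨b', c', j', a'⟩
  constructor
  · intro h
    have hj := j.2
    have hj' := j'.2
    simp only [tz] at h
    have key : idx c = idx c' ∧ (j : ℕ) = j' ∧ a = a' := by
      rcases z2 a with rfl | rfl <;> rcases z2 a' with rfl | rfl <;> simp at h ⊢ <;> omega
    obtain ⟨h1, h2, h3⟩ := key
    rw [hidx h1, Fin.ext h2, h3]
  · intro h
    simp only [Prod.mk.injEq] at h
    obtain ⟨rfl, rfl, rfl⟩ := h
    rfl

noncomputable def hh (c : C) : ℝ := 3 * (idx c : ℝ) + 2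

noncomputable def qa : Big X C → ℝ
  | inl _ => 0
  | inr w => if w.2.1 = 0 then (if w.2.2 = 0 then 1 / 4 - hh idx w.1 ^ 2 else 0)
      else (if w.2.2 = 0 then hh idx w.1 ^ 2 - 1 / 4 else 0)

noncomputable def qb : Big X C → ℝ
  | inl w => if w.2 = 0 then -1 else 1
  | inr w => if w.2.1 = 0 then (if w.2.2 = 0 then -1 else 0)
      else (if w.2.2 = 0 then -1 else 1)

noncomputable def qc : Big X C → ℝ
  | inl _ => 0
  | inr w => if w.2.1 = 0 then (if w.2.2 = 0 then 1 else 0)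
      else (if w.2.2 = 0 then -1 else 0)

noncomputable def th (p : Prb C) : ℝ :=
  if p.1 then 0 else if p.2.2.2 = 0 then (if p.2.2.1 = 1 then 1 / 2 else -1 / 2)
    else (if p.2.2.1 = 1 then -1 / 2 else 1 / 2)

lemma key (w : Big X C) (p : Prb C) (h : cl w = att var p) :
    (bit (fun _ => 1) w p.2.2.1 = p.2.2.2 →
      th p < qa idx w + qb w * (tz idx p : ℝ) + qc w * (tz idx p : ℝ) ^ 2) ∧
    (bit (fun _ => 1) w p.2.2.1 ≠ p.2.2.2 →
      qa idx w + qb w * (tz idx p : ℝ) + qc w * (tz idx p : ℝ) ^ 2 < th p) := by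
  have h11 : (1 : ZMod 2) + 1 = 0 := by decide
  rcases w with ⟨x, a⟩ | ⟨c, a, b⟩ <;> rcases p with ⟨_ | _, c', j, a'⟩
  · simp [cl, att] at h
  · have hi : (0 : ℝ) ≤ idx c' := Nat.cast_nonneg _
    rcases z2 a with rfl | rfl <;> rcases z2 a' with rfl | rfl <;> fin_cases j <;>
      simp [bit, th, qa, qb, qc, tz] <;> nlinarith
  · simp only [cl, att, inr.injEq] at h
    subst h
    have hi : (0 : ℝ) ≤ idx c := Nat.cast_nonneg _
    rcases z2 a with rfl | rfl <;> rcases z2 b with rfl | rfl <;> rcases z2 a' with rfl | rfl <;>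
      fin_cases j <;> simp [bit, th, qa, qb, qc, tz, hh, h11] <;> nlinarith
  · simp [cl, att] at h

theorem disk [Fintype X] [Fintype C] (hinj : Function.Injective lv)
    (hidx : Function.Injective idx) :
    ∃ c : Vx X C → EuclideanSpace ℝ (Fin 2), ∃ r : Vx X C → ℝ, (∀ i, 0 < r i) ∧
      ∀ i j, i ≠ j → ((Gr var lv (fun _ => 1)).Adj i j ↔ dist (c i) (c j) ≤ r i + r j) := by
  obtain ⟨cB, rB, cP, ρ, h1, h2, h3, h4, h5⟩ := geo (B := Big X C) (P := Prb C)
    (fun w => (lv (cl w) : ℝ)) (qa idx) qb qc (fun p => (lv (att var p) : ℝ))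
    (fun p => (tz idx p : ℝ)) th (by
      intro w p h
      have hc : cl w = att var p := hinj (by exact_mod_cast h)
      have k := key var idx w p hc
      by_cases hb : bit (fun _ => 1) w p.2.2.1 = p.2.2.2
      · exact (k.1 hb).ne'
      · exact (k.2 hb).ne)
  have h6 : ∀ w p, bp var lv (fun _ => 1) w p ↔ dist (cB w) (cP p) ≤ rB w + ρ := by
    intro w p
    rw [h4]
    unfold bp
    apply or_congr (by exact_mod_cast Iff.rfl)
    constructor
    · rintro ⟨a, b⟩
      exact ⟨by rw [a], (key var idx w p a).1 b⟩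
    · rintro ⟨a, b⟩
      have hc : cl w = att var p := hinj (by exact_mod_cast a)
      refine ⟨hc, ?_⟩
      by_contra hb
      have := (key var idx w p hc).2 hb
      linarith
  refine ⟨Sum.elim cB cP, Sum.elim rB (fun _ => ρ), ?_, ?_⟩
  · rintro (w | p)
    · exact h1 w
    · exact h2
  · rintro (w | p) (w' | p') hne
    · exact ⟨fun _ => h3 w w', fun _ e => hne (by rw [e])⟩
    · exact h6 w p'
    · change bp var lv _ w' p ↔ dist (cP p) (cB w') ≤ ρ + rB w'
      rw [dist_comm, add_comm]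
      exact h6 w' p
    · change (p ≠ p' ∧ p.2 = p'.2) ↔ dist (cP p) (cP p') ≤ ρ + ρ
      rw [h5, Int.cast_inj, tz_inj idx hidx]
      exact ⟨fun h => h.2, fun h => ⟨fun e => hne (by rw [e]), h⟩⟩

end

end Pool.Agent.H.MP_5fb53e_lc
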