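import Mathlib

set_option autoImplicit false

namespace Pool.Agent.H.MP_5fb53e_lc

open Filter Topology

noncomputable def pt (x y : ℝ) : EuclideanSpace ℝ (Fin 2) := !₂[x, y]

lemma dist_pt_le (x y x' y' r : ℝ) (hr : 0 ≤ r) :
    dist (pt x y) (pt x' y') ≤ r ↔ 0 ≤ r ^ 2 - ((x - x') ^ 2 + (y - y') ^ 2) := by
  rw [EuclideanSpace.dist_eq, Real.sqrt_le_left hr, Fin.sum_univ_two]
  simp [pt, Real.dist_eq, sq_abs]

lemma sign_ev (G : ℝ → ℝ) (hG : Continuous G) (h0 : G 0 ≠ 0) :
    ∀ᶠ l in 𝓝[>] (0 : ℝ), (0 ≤ G l ↔ 0 < G 0) := by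
  apply Eventually.filter_mono nhdsWithin_le_nhds
  rcases lt_or_gt_of_ne h0 with h | h
  · have := hG.continuousAt.eventually_lt (continuousAt_const (y := (0 : ℝ))) h
    filter_upwards [this] with l hl
    constructor
    · intro h1; linarith
    · intro h1; linarith
  · have := (continuousAt_const (y := (0 : ℝ))).eventually_lt hG.continuousAt h
    filter_upwards [this] with l hl
    constructor
    · intro _; exact h
    · intro _; exact hl.le

noncomputable def n1 (t : ℝ) : ℝ := (1 - t ^ 2) / (1 + t ^ 2)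
noncomputable def n2 (t : ℝ) : ℝ := 2 * t / (1 + t ^ 2)

lemma n_sq (t : ℝ) : n1 t ^ 2 + n2 t ^ 2 = 1 := by
  unfold n1 n2
  have : (1 + t ^ 2) ≠ 0 := by positivity
  field_simp
  ring

lemma n_inj (t u : ℝ) (h1 : n1 t = n1 u) (h2 : n2 t = n2 u) : t = u := by
  have key : ∀ t : ℝ, t * (1 + n1 t) = n2 t := by
    intro t
    unfold n1 n2
    have : (1 + t ^ 2) ≠ 0 := by positivity
    field_simp
    ring
  have hp : 0 < 1 + n1 t := by
    unfold n1
    have : (0 : ℝ) < 1 + t ^ 2 := by positivity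
    have h : 1 + (1 - t ^ 2) / (1 + t ^ 2) = 2 / (1 + t ^ 2) := by
      field_simp
      ring
    rw [h]; positivity
  have a := key t
  have b := key u
  rw [← h1, ← h2, ← a] at b
  exact (mul_right_cancel₀ hp.ne' b).symm

theorem geo {B P : Type} [Fintype B] [Fintype P] (lev qa qb qc : B → ℝ) (plev τ θ : P → ℝ)
    (hne : ∀ w p, lev w = plev p → qa w + qb w * τ p + qc w * τ p ^ 2 ≠ θ p) :
    ∃ (cB : B → EuclideanSpace ℝ (Fin 2)) (rB : B → ℝ) (cP : P → EuclideanSpace ℝ (Fin 2))
      (ρ : ℝ), (∀ w, 0 < rB w) ∧ 0 < ρ ∧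
      (∀ w w', dist (cB w) (cB w') ≤ rB w + rB w') ∧
      (∀ w p, dist (cB w) (cP p) ≤ rB w + ρ ↔
        (plev p < lev w ∨ (lev w = plev p ∧ θ p < qa w + qb w * τ p + qc w * τ p ^ 2))) ∧
      (∀ p p', dist (cP p) (cP p') ≤ ρ + ρ ↔ τ p = τ p') := by
  classical
  set K : ℝ := 1 + ∑ p, |plev p| with hK
  have hK1 : ∀ p, |plev p| + 1 ≤ K := by
    intro p
    have := Finset.single_le_sum (f := fun p => |plev p|) (fun p _ => abs_nonneg _)
      (Finset.mem_univ p)
    linarith
  have hK0 : 0 < K := by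
    have : 0 ≤ ∑ p, |plev p| := Finset.sum_nonneg (fun p _ => abs_nonneg _)
    linarith
  let γ : B → ℝ := fun w => (qa w + qc w) / 2
  let α : B → ℝ := fun w => (qa w - qc w) / 2
  let β : B → ℝ := fun w => qb w / 2
  let θ' : P → ℝ := fun p => θ p / (1 + τ p ^ 2)
  let R : B → ℝ → ℝ := fun w l => 1 + l * lev w + l ^ 2 * γ w
  let s : P → ℝ → ℝ := fun p l => 1 + l * plev p + l ^ 2 * θ' p
  have e0 : ∀ᶠ l in 𝓝[>] (0 : ℝ), 0 < l := self_mem_nhdsWithin
  have e1 : ∀ w, ∀ᶠ l in 𝓝[>] (0 : ℝ), 0 ≤ R w l - K * l - 1 / 2 := by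
    intro w
    have := sign_ev (fun l => R w l - K * l - 1 / 2) (by simp only [R]; fun_prop)
      (by simp only [R]; norm_num)
    filter_upwards [this] with l hl
    apply hl.2
    simp only [R]; norm_num
  have e2 : ∀ w w', ∀ᶠ l in 𝓝[>] (0 : ℝ),
      0 ≤ 1 - ((l ^ 2 * α w - l ^ 2 * α w') ^ 2 + (l ^ 2 * β w - l ^ 2 * β w') ^ 2) := by
    intro w w'
    have := sign_ev (fun l => 1 - ((l ^ 2 * α w - l ^ 2 * α w') ^ 2 +
      (l ^ 2 * β w - l ^ 2 * β w') ^ 2)) (by fun_prop) (by norm_num)
    filter_upwards [this] with l hl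
    apply hl.2
    norm_num
  have e3 : ∀ w p, ∀ᶠ l in 𝓝[>] (0 : ℝ),
      (0 ≤ R w l ^ 2 - ((l ^ 2 * α w - s p l * n1 (τ p)) ^ 2 +
        (l ^ 2 * β w - s p l * n2 (τ p)) ^ 2) ↔
      (plev p < lev w ∨ (lev w = plev p ∧ θ p < qa w + qb w * τ p + qc w * τ p ^ 2))) := by
    intro w p
    have hn := n_sq (τ p)
    by_cases hl : lev w = plev p
    · let G : ℝ → ℝ := fun l => (γ w - θ' p) * (R w l + s p l) +
        2 * s p l * (α w * n1 (τ p) + β w * n2 (τ p)) - l ^ 2 * (α w ^ 2 + β w ^ 2)
      have hpos : (0 : ℝ) < 1 + τ p ^ 2 := by positivity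
      have hG0 : G 0 = 2 * (qa w + qb w * τ p + qc w * τ p ^ 2 - θ p) / (1 + τ p ^ 2) := by
        simp only [G, R, s, γ, α, β, θ', n1, n2]
        field_simp
        ring
      have hq := hne w p hl
      have := sign_ev G (by simp only [G, R, s]; fun_prop) (by
        rw [hG0]
        apply div_ne_zero _ hpos.ne'
        apply mul_ne_zero two_ne_zero (sub_ne_zero.2 hq))
      filter_upwards [this, e0] with l h1 h2
      have hF : R w l ^ 2 - ((l ^ 2 * α w - s p l * n1 (τ p)) ^ 2 +
          (l ^ 2 * β w - s p l * n2 (τ p)) ^ 2) = l ^ 2 * G l := by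
        have : R w l - s p l = l ^ 2 * (γ w - θ' p) := by
          simp only [R, s]; rw [hl]; ring
        simp only [G]
        linear_combination (R w l + s p l) * this - (s p l) ^ 2 * hn
      rw [hF, mul_nonneg_iff_of_pos_left (by positivity), h1, hG0]
      rw [div_pos_iff_of_pos_right hpos]
      constructor
      · intro h; right; exact ⟨hl, by linarith⟩
      · rintro (h | h)
        · rw [hl] at h; exact absurd h (lt_irrefl _)
        · linarith [h.2]
    · let G : ℝ → ℝ := fun l => (lev w - plev p + l * (γ w - θ' p)) * (R w l + s p l) +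
        2 * s p l * l * (α w * n1 (τ p) + β w * n2 (τ p)) - l ^ 3 * (α w ^ 2 + β w ^ 2)
      have hG0 : G 0 = 2 * (lev w - plev p) := by
        simp only [G, R, s]; ring
      have := sign_ev G (by simp only [G, R, s]; fun_prop) (by
        rw [hG0]
        apply mul_ne_zero two_ne_zero (sub_ne_zero.2 hl))
      filter_upwards [this, e0] with l h1 h2
      have hF : R w l ^ 2 - ((l ^ 2 * α w - s p l * n1 (τ p)) ^ 2 +
          (l ^ 2 * β w - s p l * n2 (τ p)) ^ 2) = l * G l := by
        have : R w l - s p l = l * (lev w - plev p + l * (γ w - θ' p)) := by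
          simp only [R, s]; ring
        simp only [G]
        linear_combination (R w l + s p l) * this - (s p l) ^ 2 * hn
      rw [hF, mul_nonneg_iff_of_pos_left h2, h1, hG0]
      constructor
      · intro h; left; linarith
      · rintro (h | h)
        · linarith
        · exact absurd h.1 hl
  have e4 : ∀ p p', ∀ᶠ l in 𝓝[>] (0 : ℝ),
      (0 ≤ (K * l + K * l) ^ 2 - ((s p l * n1 (τ p) - s p' l * n1 (τ p')) ^ 2 +
        (s p l * n2 (τ p) - s p' l * n2 (τ p')) ^ 2) ↔ τ p = τ p') := by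
    intro p p'
    by_cases ht : τ p = τ p'
    · let G : ℝ → ℝ := fun l => 4 * K ^ 2 - (plev p - plev p' + l * (θ' p - θ' p')) ^ 2
      have hG0 : 0 < G 0 := by
        simp only [G]
        have a := hK1 p
        have b := hK1 p'
        have a1 := le_abs_self (plev p)
        have a2 := neg_abs_le (plev p)
        have b1 := le_abs_self (plev p')
        have b2 := neg_abs_le (plev p')
        nlinarith
      have := sign_ev G (by simp only [G]; fun_prop) hG0.ne'
      filter_upwards [this, e0] with l h1 h2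
      have hn := n_sq (τ p')
      have hF : (K * l + K * l) ^ 2 - ((s p l * n1 (τ p) - s p' l * n1 (τ p')) ^ 2 +
          (s p l * n2 (τ p) - s p' l * n2 (τ p')) ^ 2) = l ^ 2 * G l := by
        have : s p l - s p' l = l * (plev p - plev p' + l * (θ' p - θ' p')) := by
          simp only [s]; ring
        simp only [G]
        rw [ht]
        linear_combination (-(s p l - s p' l) ^ 2) * hn -
          (s p l - s p' l + l * (plev p - plev p' + l * (θ' p - θ' p'))) * this
      rw [hF, mul_nonneg_iff_of_pos_left (by positivity), h1]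
      exact ⟨fun _ => ht, fun _ => hG0⟩
    · let G : ℝ → ℝ := fun l => (K * l + K * l) ^ 2 -
        ((s p l * n1 (τ p) - s p' l * n1 (τ p')) ^ 2 + (s p l * n2 (τ p) - s p' l * n2 (τ p')) ^ 2)
      have hG0 : G 0 < 0 := by
        simp only [G, s]
        have : n1 (τ p) - n1 (τ p') ≠ 0 ∨ n2 (τ p) - n2 (τ p') ≠ 0 := by
          by_contra hc
          push Not at hc
          exact ht (n_inj _ _ (sub_eq_zero.1 hc.1) (sub_eq_zero.1 hc.2))
        rcases this with h | h
        · have := sq_pos_of_ne_zero h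
          nlinarith [sq_nonneg (n2 (τ p) - n2 (τ p'))]
        · have := sq_pos_of_ne_zero h
          nlinarith [sq_nonneg (n1 (τ p) - n1 (τ p'))]
      have := sign_ev G (by simp only [G, s]; fun_prop) hG0.ne
      filter_upwards [this] with l h1
      change 0 ≤ G l ↔ _
      rw [h1]
      exact ⟨fun h => absurd h (by linarith), fun h => absurd h ht⟩
  have all := e0.and ((eventually_all.2 e1).and ((eventually_all.2 fun w =>
    eventually_all.2 (e2 w)).and ((eventually_all.2 fun w => eventually_all.2 (e3 w)).and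
    (eventually_all.2 fun p => eventually_all.2 (e4 p)))))
  obtain ⟨l, h0, h1, h2, h3, h4⟩ := all.exists
  have hρ : 0 < K * l := mul_pos hK0 h0
  refine ⟨fun w => pt (l ^ 2 * α w) (l ^ 2 * β w), fun w => R w l - K * l,
    fun p => pt (s p l * n1 (τ p)) (s p l * n2 (τ p)), K * l, fun w => by linarith [h1 w], hρ,
    ?_, ?_, ?_⟩
  · intro w w'
    have : dist (pt (l ^ 2 * α w) (l ^ 2 * β w)) (pt (l ^ 2 * α w') (l ^ 2 * β w')) ≤ 1 := by
      rw [dist_pt_le _ _ _ _ _ zero_le_one]
      have := h2 w w'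
      linarith
    linarith [h1 w, h1 w']
  · intro w p
    have : R w l - K * l + K * l = R w l := by ring
    rw [this, dist_pt_le _ _ _ _ _ (by linarith [h1 w])]
    exact h3 w p
  · intro p p'
    rw [dist_pt_le _ _ _ _ _ (by linarith)]
    exact h4 p p'

end Pool.Agent.H.MP_5fb53e_lc
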