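import Pool.Agent.H.MP_5fb53e_lc.Cfi

set_option autoImplicit false

namespace Pool.Agent.H.MP_5fb53e_lc

open Sum

abbrev Ent (N : ℕ) := Bool → Fin N
abbrev Loc (N : ℕ) := Bool × Fin N
abbrev TX (N : ℕ) := Loc N × (Ent N → ZMod 2)
abbrev TC (N : ℕ) := (Loc N × (Ent N → ZMod 2) × (Ent N → ZMod 2)) ⊕ Ent N ⊕ Loc N

section
variable {N : ℕ}

def ind (l : Loc N) : Ent N → ZMod 2 := fun e => if e l.1 = l.2 then 1 else 0

def tvar : TC N → Fin 3 → TX N
  | inl w => ![(w.1, w.2.1), (w.1, w.2.2), (w.1, w.2.1 + w.2.2)]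
  | inr (inl e) => ![((false, e false), Pi.single e 1), ((true, e true), Pi.single e 1),
      ((false, e false), 0)]
  | inr (inr l) => ![(l, ind l), (l, 0), (l, 0)]

def val (T : Ent N → ZMod 2) (x : TX N) : ZMod 2 := ∑ e, ind x.1 e * x.2 e * T e

def dl (r0 : Loc N) : TC N → ZMod 2
  | inl _ => 0
  | inr (inl _) => 0
  | inr (inr l) => if l = r0 then 1 else 0

lemma tocc (x : TX N) : ∃ c j, tvar c j = x := ⟨inl (x.1, x.2, 0), 0, rfl⟩

lemma sat_iff (r0 : Loc N) (A : TX N → ZMod 2) (c : TC N) :
    sat tvar (fun _ => 1) (fun c => 1 + dl r0 c) A c ↔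
      A (tvar c 0) + A (tvar c 1) + A (tvar c 2) = dl r0 c := by
  unfold sat
  rw [← add_assoc (1 : ZMod 2) 1, z2add, zero_add]

lemma unsat (i0 : Fin N) (A : TX N → ZMod 2) :
    ¬ ∀ c, sat tvar (fun _ => 1) (fun c => 1 + dl (true, i0) c) A c := by
  intro h
  simp only [sat_iff] at h
  have h0 : ∀ l, A (l, 0) = 0 := by
    intro l
    have := h (inl (l, 0, 0))
    simp only [tvar, dl] at this
    simpa [z2add] using this
  have hadd : ∀ l F F', A (l, F + F') = A (l, F) + A (l, F') := by
    intro l F F'
    have := h (inl (l, F, F'))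
    simp only [tvar, dl] at this
    simp at this
    generalize A (l, F + F') = a at *
    generalize A (l, F) = b at *
    generalize A (l, F') = c at *
    revert this a b c
    decide
  have hsym : ∀ e : Ent N, A ((false, e false), Pi.single e 1) =
      A ((true, e true), Pi.single e 1) := by
    intro e
    have := h (inr (inl e))
    simp only [tvar, dl] at this
    simp [h0] at this
    generalize A ((false, e false), Pi.single e 1) = a at *
    generalize A ((true, e true), Pi.single e 1) = b at *
    revert this a b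
    decide
  have hpar : ∀ l, A (l, ind l) = if l = (true, i0) then 1 else 0 := by
    intro l
    have := h (inr (inr l))
    simp only [tvar, dl] at this
    simpa [h0] using this
  have hexp : ∀ l : Loc N, A (l, ind l) =
      ∑ e : Ent N, if e l.1 = l.2 then A (l, Pi.single e 1) else 0 := by
    intro l
    let L : (Ent N → ZMod 2) →+ ZMod 2 := AddMonoidHom.mk' (fun F => A (l, F)) (hadd l)
    have e1 : ind l = ∑ e : Ent N, if e l.1 = l.2 then Pi.single e (1 : ZMod 2) else 0 := by
      funext e'
      rw [Finset.sum_apply, Finset.sum_eq_single e']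
      · unfold ind
        split_ifs <;> simp
      · intro b _ hb
        split_ifs
        · exact Pi.single_eq_of_ne hb.symm _
        · rfl
      · simp
    change L (ind l) = _
    rw [e1, map_sum]
    apply Finset.sum_congr rfl
    intro e _
    split_ifs
    · rfl
    · exact map_zero L
  have hS : ∀ s : Bool, ∑ i : Fin N, A ((s, i), ind (s, i)) =
      ∑ e : Ent N, A ((s, e s), Pi.single e 1) := by
    intro s
    simp only [hexp]
    rw [Finset.sum_comm]
    apply Finset.sum_congr rfl
    intro e _
    simp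
  have a := hS false
  have b := hS true
  simp only [hsym] at a
  rw [← b] at a
  simp [hpar] at a

def locC : TC N → Bool → Fin N
  | inl w => fun _ => w.1.2
  | inr (inl e) => e
  | inr (inr l) => fun _ => l.2

def loc : Vx (TX N) (TC N) → Bool → Fin N
  | inl (inl w) => fun _ => w.1.1.2
  | inl (inr w) => locC w.1
  | inr p => locC p.2.1

lemma var_loc (c : TC N) (j : Fin 3) : locC c (tvar c j).1.1 = (tvar c j).1.2 := by
  rcases c with w | e | l <;> fin_cases j <;> rfl

lemma loc_phi (A : TX N → ZMod 2) (v : Vx (TX N) (TC N)) : loc (phi tvar A v) = loc v := by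
  rcases v with (w | w) | p <;> rfl

lemma val_flip (T : Ent N → ZMod 2) (e0 : Ent N) (x : TX N) :
    val (T + Pi.single e0 1) x = val T x + ind x.1 e0 * x.2 e0 := by
  unfold val
  simp only [Pi.add_apply, mul_add, Finset.sum_add_distrib]
  congr 1
  rw [Finset.sum_eq_single e0]
  · simp
  · intro b _ hb
    rw [Pi.single_eq_of_ne hb, mul_zero]
  · simp

lemma val_flip_ne (T : Ent N → ZMod 2) (e0 : Ent N) (x : TX N) (h : e0 x.1.1 ≠ x.1.2) :
    val (T + Pi.single e0 1) x = val T x := by
  rw [val_flip]
  simp [ind, h]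

lemma phi_flip (T : Ent N → ZMod 2) (e0 : Ent N) (v : Vx (TX N) (TC N))
    (h : ∀ s, e0 s ≠ loc v s) :
    phi tvar (val (T + Pi.single e0 1)) v = phi tvar (val T) v := by
  rcases v with (w | w) | p
  · simp only [phi, phiB]
    rw [val_flip_ne _ _ _ (h _)]
  · simp only [phi, phiB]
    rw [val_flip_ne, val_flip_ne]
    · rw [← var_loc]; exact h _
    · rw [← var_loc]; exact h _
  · simp only [phi, phiP]
    rw [val_flip_ne]
    rw [← var_loc]; exact h _

def good (r0 : Loc N) (T : Ent N → ZMod 2) (r : Loc N) : Prop :=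
  ∀ l, val T (l, ind l) = (if l = r0 then 1 else 0) + (if l = r then 1 else 0)

lemma good_zero (r0 : Loc N) : good r0 0 r0 := by
  intro l
  rw [z2add]
  simp [val]

lemma good_flip (r0 : Loc N) (T : Ent N → ZMod 2) (r : Loc N) (h : good r0 T r) (e0 : Ent N)
    (he : e0 r.1 = r.2) : good r0 (T + Pi.single e0 1) (!r.1, e0 (!r.1)) := by
  intro l
  rw [val_flip, h l, add_assoc]
  congr 1
  rcases r with ⟨s, i⟩
  rcases l with ⟨s', i'⟩
  simp only at he
  subst he
  have h11 : (1 : ZMod 2) + 1 = 0 := by decide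
  rcases s with _ | _ <;> rcases s' with _ | _ <;> simp [ind, eq_comm] <;> split_ifs <;>
    simp [h11]

lemma good_ok (r0 : Loc N) (T : Ent N → ZMod 2) (r : Loc N) (h : good r0 T r)
    (v : Vx (TX N) (TC N)) (hv : loc v r.1 ≠ r.2) :
    okv tvar (fun _ => 1) (fun c => 1 + dl r0 c) (val T) v := by
  rintro c a b rfl
  rw [sat_iff]
  have v0 : ∀ l, val T (l, 0) = 0 := by intro l; simp [val]
  rcases c with ⟨l, F, F'⟩ | e | l
  · have : val T (l, F + F') = val T (l, F) + val T (l, F') := by
      simp only [val, Pi.add_apply, mul_add, add_mul, Finset.sum_add_distrib]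
    change val T (l, F) + val T (l, F') + val T (l, F + F') = 0
    rw [this, z2add]
  · have : ∀ s, val T ((s, e s), Pi.single e 1) = T e := by
      intro s
      unfold val
      rw [Finset.sum_eq_single e]
      · simp [ind]
      · intro b _ hb
        simp only
        rw [Pi.single_eq_of_ne hb, mul_zero, zero_mul]
      · simp
    change val T ((false, e false), Pi.single e 1) + val T ((true, e true), Pi.single e 1) +
      val T ((false, e false), 0) = 0
    rw [this, this, v0, z2add, add_zero]
  · change val T (l, ind l) + val T (l, 0) + val T (l, 0) = if l = r0 then 1 else 0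
    have hne : l ≠ r := by
      rintro rfl
      exact hv rfl
    rw [h l, v0, if_neg hne]
    simp

lemma step (r0 : Loc N) (T : Ent N → ZMod 2) (r : Loc N) (h : good r0 T r)
    (S : Finset (Vx (TX N) (TC N))) (hS : S.card + 1 < N) (hr : ∀ w ∈ S, loc w r.1 ≠ r.2) :
    ∃ f : Vx (TX N) (TC N) ≃ Vx (TX N) (TC N), ∀ v, ∃ T' r', good r0 T' r' ∧
      f v = phi tvar (val T') v ∧ loc v r'.1 ≠ r'.2 ∧
      ∀ w ∈ S, phi tvar (val T') w = phi tvar (val T) w ∧ loc w r'.1 ≠ r'.2 := by
  classical
  have hJ : ∀ i : Fin N, ∃ j : Fin N, j ≠ i ∧ ∀ w ∈ S, j ≠ loc w (!r.1) := by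
    intro i
    have hc : (insert i (S.image fun w => loc w (!r.1))).card < (Finset.univ : Finset (Fin N)).card := by
      have := Finset.card_insert_le i (S.image fun w => loc w (!r.1))
      have := Finset.card_image_le (s := S) (f := fun w => loc w (!r.1))
      simp only [Finset.card_univ, Fintype.card_fin]
      omega
    obtain ⟨j, -, hj⟩ := Finset.exists_mem_notMem_of_card_lt_card hc
    simp only [Finset.mem_insert, Finset.mem_image, not_or, not_exists, not_and] at hj
    exact ⟨j, hj.1, fun w hw e => hj.2 w hw e.symm⟩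
  choose J hJ1 hJ2 using hJ
  let e0 : Vx (TX N) (TC N) → Ent N := fun v s => if s = r.1 then r.2 else J (loc v (!r.1))
  have e1 : ∀ v, e0 v r.1 = r.2 := fun v => by simp [e0]
  have e2 : ∀ v, e0 v (!r.1) = J (loc v (!r.1)) := fun v => by simp [e0]
  let f : Vx (TX N) (TC N) → Vx (TX N) (TC N) :=
    fun v => phi tvar (val (T + Pi.single (e0 v) 1)) v
  have hf : Function.Involutive f := by
    intro v
    have : e0 (f v) = e0 v := by
      funext s
      simp only [e0, f, loc_phi]
    change phi tvar (val (T + Pi.single (e0 (f v)) 1)) (f v) = v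
    rw [this]
    exact phi_phi _ _ _
  refine ⟨hf.toPerm, fun v => ⟨T + Pi.single (e0 v) 1, (!r.1, e0 v (!r.1)),
    good_flip r0 T r h _ (e1 v), rfl, ?_, ?_⟩⟩
  · simp only [e2]
    exact (hJ1 _).symm
  · intro w hw
    refine ⟨phi_flip _ _ _ ?_, ?_⟩
    · intro s
      by_cases hs : s = r.1
      · rw [hs, e1]; exact (hr w hw).symm
      · have : s = !r.1 := by
          revert hs; cases s <;> cases r.1 <;> simp
        rw [this, e2]
        exact hJ2 _ w hw
    · simp only [e2]
      exact (hJ2 _ w hw).symm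

end

end Pool.Agent.H.MP_5fb53e_lc
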